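import Mathlib

namespace Pool.Agent.Results.MP_1235ca_co.TeslerBound

open Finset

/-- `A` is a Tesler matrix with hook sums `α`: upper triangular with nonnegative integer entries,
and for every `i` the sum of row `i` from the diagonal rightwards minus the sum of the part of
column `i` strictly above the diagonal equals `α i`. -/
def IsTesler {n : ℕ} (α : Fin n → ℕ) (A : (Fin n → Fin n → ℕ)) : Prop :=
  (∀ i j, j < i → A i j = 0) ∧
  ∀ i, ((∑ j with i ≤ j, A i j : ℕ) : ℤ) - ((∑ j with j < i, A j i : ℕ) : ℤ) = (α i : ℤ)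

/-- The number of Tesler matrices with hook sums `α`. -/
noncomputable def teslerCount {n : ℕ} (α : Fin n → ℕ) : ℕ :=
  {A : (Fin n → Fin n → ℕ) | IsTesler α A}.ncard

lemma isTesler_iff {n : ℕ} (α : Fin n → ℕ) (A : (Fin n → Fin n → ℕ)) :
    IsTesler α A ↔ (∀ i j, j < i → A i j = 0) ∧ ∀ i, ∑ j, A i j + A i i = α i + ∑ j, A j i := by
  unfold IsTesler
  refine and_congr_right fun h => forall_congr' fun i => ?_
  have h1 : ∑ j, A i j = ∑ j with i ≤ j, A i j := by
    rw [← Finset.sum_filter_add_sum_filter_not univ (fun j => i ≤ j)]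
    have : ∑ j with ¬ i ≤ j, A i j = 0 := by
      apply Finset.sum_eq_zero
      intro j hj
      simp only [Finset.mem_filter, Finset.mem_univ, true_and, not_le] at hj
      exact h i j hj
    omega
  have h2 : ∑ j, A j i = ∑ j with j < i, A j i + A i i := by
    rw [← Finset.sum_filter_add_sum_filter_not univ (fun j => j < i)]
    have : ∑ j with ¬ j < i, A j i = A i i := by
      apply Finset.sum_eq_single_of_mem
      · simp
      · intro j hj hne
        simp only [Finset.mem_filter, Finset.mem_univ, true_and, not_lt] at hj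
        exact h j i (lt_of_le_of_ne hj (Ne.symm hne))
    omega
  rw [h1, h2]
  omega

/-- Remove the last vertex. -/
def down {n : ℕ} (A : (Fin (n+1) → Fin (n+1) → ℕ)) : (Fin n → Fin n → ℕ) :=
  fun i j => if i = j then A i.castSucc i.castSucc + A i.castSucc (Fin.last n)
    else A i.castSucc j.castSucc

def ext' {n : ℕ} (A : (Fin (n+1) → Fin (n+1) → ℕ)) : Fin n → ℕ :=
  fun i => A i.castSucc (Fin.last n)

/-- Add a last vertex. -/
def up {n : ℕ} (a : ℕ) (A : (Fin n → Fin n → ℕ)) (e : Fin n → ℕ) :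
    (Fin (n+1) → Fin (n+1) → ℕ) :=
  fun i j => Fin.lastCases (motive := fun _ => ℕ)
    (Fin.lastCases (motive := fun _ => ℕ) (a + ∑ k, e k) (fun _ => 0) j)
    (fun i' => Fin.lastCases (motive := fun _ => ℕ) (e i')
      (fun j' => if i' = j' then A i' i' - e i' else A i' j') j) i

@[simp] lemma up_ll {n : ℕ} (a : ℕ) (A : (Fin n → Fin n → ℕ)) (e : Fin n → ℕ) :
    up a A e (Fin.last n) (Fin.last n) = a + ∑ k, e k := by simp [up]
@[simp] lemma up_lc {n : ℕ} (a : ℕ) (A : (Fin n → Fin n → ℕ)) (e : Fin n → ℕ) (j : Fin n) :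
    up a A e (Fin.last n) j.castSucc = 0 := by simp [up]
@[simp] lemma up_cl {n : ℕ} (a : ℕ) (A : (Fin n → Fin n → ℕ)) (e : Fin n → ℕ) (i : Fin n) :
    up a A e i.castSucc (Fin.last n) = e i := by simp [up]
@[simp] lemma up_cc {n : ℕ} (a : ℕ) (A : (Fin n → Fin n → ℕ)) (e : Fin n → ℕ) (i j : Fin n) :
    up a A e i.castSucc j.castSucc = if i = j then A i i - e i else A i j := by simp [up]

lemma down_up {n : ℕ} (a : ℕ) (A : (Fin n → Fin n → ℕ)) (e : Fin n → ℕ)
    (he : ∀ i, e i ≤ A i i) : down (up a A e) = A := by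
  funext i j
  simp only [down, up_cc, up_cl]
  by_cases h : i = j
  · subst h
    have := he i
    simp; omega
  · simp [h]

lemma ext_up {n : ℕ} (a : ℕ) (A : (Fin n → Fin n → ℕ)) (e : Fin n → ℕ) :
    ext' (up a A e) = e := by
  funext i; simp [ext']

lemma sum_ite_diag {n : ℕ} (B : (Fin n → Fin n → ℕ)) (x : Fin n → ℕ) (i : Fin n) :
    (∑ j, if i = j then x i else B i j) + B i i = ∑ j, B i j + x i := by
  rw [← Finset.add_sum_erase univ (fun j => if i = j then x i else B i j) (Finset.mem_univ i),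
    ← Finset.add_sum_erase univ (fun j => B i j) (Finset.mem_univ i)]
  have : ∑ j ∈ univ.erase i, (if i = j then x i else B i j) = ∑ j ∈ univ.erase i, B i j := by
    apply Finset.sum_congr rfl
    intro j hj
    have := Finset.ne_of_mem_erase hj
    simp [Ne.symm this]
  simp only [this, if_true]
  ring

lemma sum_ite_diag' {n : ℕ} (B : (Fin n → Fin n → ℕ)) (x : Fin n → ℕ) (i : Fin n) :
    (∑ j, if j = i then x j else B j i) + B i i = ∑ j, B j i + x i := by
  rw [← Finset.add_sum_erase univ (fun j => if j = i then x j else B j i) (Finset.mem_univ i),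
    ← Finset.add_sum_erase univ (fun j => B j i) (Finset.mem_univ i)]
  have : ∑ j ∈ univ.erase i, (if j = i then x j else B j i) = ∑ j ∈ univ.erase i, B j i := by
    apply Finset.sum_congr rfl
    intro j hj
    have := Finset.ne_of_mem_erase hj
    simp [this]
  simp only [this, if_true]
  ring

lemma isTesler_up {n : ℕ} (α : Fin (n+1) → ℕ) (A : (Fin n → Fin n → ℕ)) (e : Fin n → ℕ)
    (hA : IsTesler (fun i => α i.castSucc) A) (he : ∀ i, e i ≤ A i i) :
    IsTesler α (up (α (Fin.last n)) A e) := by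
  rw [isTesler_iff] at hA ⊢
  obtain ⟨h1, h2⟩ := hA
  constructor
  · intro i j
    refine Fin.lastCases ?_ (fun i' => ?_) i
    · refine Fin.lastCases ?_ (fun j' => ?_) j
      · intro h; exact absurd h (lt_irrefl _)
      · intro _; simp
    · refine Fin.lastCases ?_ (fun j' => ?_) j
      · intro h
        exact absurd h (not_lt.mpr (Fin.le_last _))
      · intro h
        rw [Fin.castSucc_lt_castSucc_iff] at h
        rw [up_cc, if_neg (ne_of_gt h)]
        exact h1 _ _ h
  · intro i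
    refine Fin.lastCases ?_ (fun i' => ?_) i
    · rw [Fin.sum_univ_castSucc, Fin.sum_univ_castSucc]
      simp
      ring
    · rw [Fin.sum_univ_castSucc, Fin.sum_univ_castSucc]
      simp only [up_cc, up_cl, up_lc, if_true]
      have e1 := sum_ite_diag A (fun i => A i i - e i) i'
      have e2 := sum_ite_diag' A (fun i => A i i - e i) i'
      have e3 := h2 i'
      have e4 := he i'
      beta_reduce at e1 e2 e3
      omega

lemma isTesler_down {n : ℕ} (α : Fin (n+1) → ℕ) (A : (Fin (n+1) → Fin (n+1) → ℕ))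
    (hA : IsTesler α A) : IsTesler (fun i => α i.castSucc) (down A) := by
  rw [isTesler_iff] at hA ⊢
  obtain ⟨h1, h2⟩ := hA
  constructor
  · intro i j h
    have h' : (j.castSucc : Fin (n+1)) < i.castSucc := Fin.castSucc_lt_castSucc_iff.mpr h
    simp only [down, if_neg (ne_of_gt h)]
    exact h1 _ _ h'
  · intro i
    have e3 := h2 i.castSucc
    rw [Fin.sum_univ_castSucc, Fin.sum_univ_castSucc] at e3
    have h0 : A (Fin.last n) i.castSucc = 0 := h1 _ _ (Fin.castSucc_lt_last i)
    have e1 := sum_ite_diag (fun i j => A i.castSucc j.castSucc)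
      (fun i => A i.castSucc i.castSucc + A i.castSucc (Fin.last n)) i
    have e2 := sum_ite_diag' (fun i j => A i.castSucc j.castSucc)
      (fun i => A i.castSucc i.castSucc + A i.castSucc (Fin.last n)) i
    simp only [down, if_true]
    beta_reduce at e1 e2 e3
    have e2' : (∑ j, if j = i then A j.castSucc j.castSucc + A j.castSucc (Fin.last n)
        else A j.castSucc i.castSucc) + A i.castSucc i.castSucc =
        ∑ j : Fin n, A j.castSucc i.castSucc + (A i.castSucc i.castSucc + A i.castSucc (Fin.last n)) := e2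
    omega

lemma up_down {n : ℕ} (α : Fin (n+1) → ℕ) (A : (Fin (n+1) → Fin (n+1) → ℕ))
    (hA : IsTesler α A) : up (α (Fin.last n)) (down A) (ext' A) = A := by
  rw [isTesler_iff] at hA
  obtain ⟨h1, h2⟩ := hA
  funext i j
  refine Fin.lastCases ?_ (fun i' => ?_) i
  · refine Fin.lastCases ?_ (fun j' => ?_) j
    · have e3 := h2 (Fin.last n)
      rw [Fin.sum_univ_castSucc, Fin.sum_univ_castSucc] at e3
      have : ∑ j : Fin n, A (Fin.last n) j.castSucc = 0 := by
        apply Finset.sum_eq_zero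
        intro j _
        exact h1 _ _ (Fin.castSucc_lt_last j)
      simp only [up_ll, ext']
      omega
    · rw [up_lc]
      exact (h1 _ _ (Fin.castSucc_lt_last j')).symm
  · refine Fin.lastCases ?_ (fun j' => ?_) j
    · simp [ext']
    · rw [up_cc]
      by_cases h : i' = j'
      · subst h
        simp [down, ext']
      · simp [down, h]

lemma finite_tesler {n : ℕ} (α : Fin n → ℕ) : {A | IsTesler α A}.Finite := by
  induction n with
  | zero => exact Set.toFinite _
  | succ n ih =>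
    have h := ih (fun i => α i.castSucc)
    have : {A | IsTesler α A} ⊆ ⋃ A ∈ {A | IsTesler (fun i => α i.castSucc) A},
        (fun e => up (α (Fin.last n)) A e) ''
          (↑(Fintype.piFinset (fun i : Fin n => Finset.range (A i i + 1))) : Set (Fin n → ℕ)) := by
      intro A hA
      simp only [Set.mem_iUnion]
      refine ⟨down A, isTesler_down α A hA, ext' A, ?_, up_down α A hA⟩
      simp [down, ext']
    refine Set.Finite.subset (Set.Finite.biUnion h ?_) this
    intro A _
    exact Set.Finite.image _ (Finset.finite_toSet _)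

/-- The finite set of Tesler matrices. -/
noncomputable def tes {n : ℕ} (α : Fin n → ℕ) : Finset ((Fin n → Fin n → ℕ)) :=
  (finite_tesler α).toFinset

lemma mem_tes {n : ℕ} (α : Fin n → ℕ) (A : (Fin n → Fin n → ℕ)) :
    A ∈ tes α ↔ IsTesler α A := by simp [tes]

lemma teslerCount_eq {n : ℕ} (α : Fin n → ℕ) : teslerCount α = (tes α).card := by
  unfold teslerCount tes
  exact Set.ncard_eq_toFinset_card _ _

lemma sum_tes_succ {M : Type*} [AddCommMonoid M] {n : ℕ} (α : Fin (n+1) → ℕ)
    (F : (Fin (n+1) → Fin (n+1) → ℕ) → M) :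
    ∑ A ∈ tes α, F A = ∑ A ∈ tes (fun i => α i.castSucc),
      ∑ e ∈ Fintype.piFinset (fun i : Fin n => Finset.range (A i i + 1)),
        F (up (α (Fin.last n)) A e) := by
  rw [Finset.sum_sigma']
  refine Finset.sum_nbij' (fun A => (⟨down A, ext' A⟩ : Σ _ : (Fin n → Fin n → ℕ), (Fin n → ℕ)))
    (fun x => up (α (Fin.last n)) x.1 x.2) ?_ ?_ ?_ ?_ ?_
  · intro A hA
    rw [mem_tes] at hA
    simp only [Finset.mem_sigma, mem_tes, Fintype.mem_piFinset, Finset.mem_range]
    refine ⟨isTesler_down α A hA, fun i => ?_⟩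
    simp [down, ext']
  · rintro ⟨A, e⟩ hx
    simp only [Finset.mem_sigma, mem_tes, Fintype.mem_piFinset, Finset.mem_range] at hx
    rw [mem_tes]
    exact isTesler_up α A e hx.1 (fun i => Nat.lt_succ_iff.mp (hx.2 i))
  · intro A hA
    rw [mem_tes] at hA
    exact up_down α A hA
  · rintro ⟨A, e⟩ hx
    simp only [Finset.mem_sigma, mem_tes, Fintype.mem_piFinset, Finset.mem_range] at hx
    simp only [ext_up, down_up _ _ _ (fun i => Nat.lt_succ_iff.mp (hx.2 i))]
  · intro A hA
    rw [mem_tes] at hA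
    simp only [up_down α A hA]

lemma sum_diag {n : ℕ} (α : Fin n → ℕ) (A : (Fin n → Fin n → ℕ)) (hA : IsTesler α A) :
    ∑ i, A i i = ∑ i, α i := by
  rw [isTesler_iff] at hA
  have h := Finset.sum_congr (rfl : (univ : Finset (Fin n)) = univ) (fun i _ => hA.2 i)
  rw [Finset.sum_add_distrib, Finset.sum_add_distrib, Finset.sum_comm] at h
  omega


/-! ### Weighted sums over the distributions of the last column -/

lemma sum_pi_affine {n : ℕ} (d : Fin n → ℕ) (g G : ℕ → ℝ) (c a b : ℝ)
    (h1 : ∀ d : ℕ, ∑ e ∈ Finset.range (d+1), g (d - e) = G d)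
    (h2 : ∀ d : ℕ, ∑ e ∈ Finset.range (d+1), (e:ℝ) * g (d - e) = c * d * G d) :
    ∑ e ∈ Fintype.piFinset (fun i => Finset.range (d i + 1)),
      (∏ i, g (d i - e i)) * (a + b * ∑ i, (e i : ℝ)) =
      (∏ i, G (d i)) * (a + b * c * ∑ i, (d i : ℝ)) := by
  have key : ∀ j : Fin n, ∑ e ∈ Fintype.piFinset (fun i => Finset.range (d i + 1)),
      (∏ i, g (d i - e i)) * (e j : ℝ) = (∏ i, G (d i)) * (c * d j) := by
    intro j
    have e1 : ∀ e : Fin n → ℕ, (∏ i, g (d i - e i)) * (e j : ℝ) =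
        ∏ i, (if i = j then (e i : ℝ) else 1) * g (d i - e i) := by
      intro e
      rw [Finset.prod_mul_distrib, Finset.prod_ite_eq' univ j (fun i => (e i : ℝ))]
      simp [mul_comm]
    simp_rw [e1]
    rw [← Finset.prod_univ_sum (fun i => Finset.range (d i + 1))
      (fun i x => (if i = j then (x : ℝ) else 1) * g (d i - x))]
    have e2 : ∀ i, ∑ x ∈ Finset.range (d i + 1), (if i = j then (x : ℝ) else 1) * g (d i - x) =
        (if i = j then c * d i else 1) * G (d i) := by
      intro i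
      by_cases h : i = j
      · simp only [h, if_true]
        exact h2 (d j)
      · simp only [h, if_false, one_mul]
        exact h1 (d i)
    simp_rw [e2]
    rw [Finset.prod_mul_distrib, Finset.prod_ite_eq' univ j (fun i => c * (d i : ℝ))]
    simp [mul_comm]
  have e0 : ∀ e : Fin n → ℕ, (∏ i, g (d i - e i)) * (a + b * ∑ i, (e i : ℝ)) =
      a * (∏ i, g (d i - e i)) + b * ∑ j, (∏ i, g (d i - e i)) * (e j : ℝ) := by
    intro e
    rw [← Finset.mul_sum]
    ring
  simp_rw [e0]
  rw [Finset.sum_add_distrib, ← Finset.mul_sum, ← Finset.mul_sum, Finset.sum_comm]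
  simp_rw [key]
  rw [← Finset.prod_univ_sum (fun i => Finset.range (d i + 1)) (fun i x => g (d i - x))]
  simp_rw [h1]
  rw [← Finset.mul_sum, ← Finset.mul_sum]
  ring

noncomputable def w1 (m : ℕ) : ℝ := (m : ℝ) + 1
noncomputable def w2 (m : ℕ) : ℝ := ((m : ℝ) + 1) * (m + 2) / 2
noncomputable def w3 (m : ℕ) : ℝ := ((m : ℝ) + 1) * (m + 2) * (m + 3) / 6

lemma sum_flip_range (d : ℕ) (f : ℕ → ℕ → ℝ) :
    ∑ e ∈ Finset.range (d+1), f e (d - e) = ∑ m ∈ Finset.range (d+1), f (d - m) m := by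
  rw [← Finset.sum_range_reflect]
  apply Finset.sum_congr rfl
  intro m hm
  have := Finset.mem_range.mp hm
  congr 1
  omega

lemma w1_sum (d : ℕ) : ∑ e ∈ Finset.range (d+1), w1 (d - e) = w2 d := by
  rw [sum_flip_range d (fun _ m => w1 m)]
  induction d with
  | zero => simp [w1, w2]
  | succ d ih =>
    rw [Finset.sum_range_succ, ih]
    simp only [w1, w2]; push_cast; ring

lemma w1_sum' (d : ℕ) : ∑ m ∈ Finset.range (d+1), (m:ℝ) * w1 m = (d:ℝ) * (d+1) * (d+2) / 3 := by
  induction d with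
  | zero => simp
  | succ d ih =>
    rw [Finset.sum_range_succ, ih]
    simp only [w1]; push_cast; ring

lemma w1_mom (d : ℕ) : ∑ e ∈ Finset.range (d+1), (e:ℝ) * w1 (d - e) = (1/3) * d * w2 d := by
  rw [sum_flip_range d (fun e m => (e:ℝ) * w1 m)]
  have : ∀ m ∈ Finset.range (d+1), ((d - m : ℕ) : ℝ) * w1 m = d * w1 m - m * w1 m := by
    intro m hm
    have := Finset.mem_range.mp hm
    rw [Nat.cast_sub (by omega)]; ring
  rw [Finset.sum_congr rfl this, Finset.sum_sub_distrib, ← Finset.mul_sum, w1_sum']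
  have h := w1_sum d
  rw [sum_flip_range d (fun _ m => w1 m)] at h
  rw [h]; simp only [w2]; ring

lemma w2_sum (d : ℕ) : ∑ e ∈ Finset.range (d+1), w2 (d - e) = w3 d := by
  rw [sum_flip_range d (fun _ m => w2 m)]
  induction d with
  | zero => simp [w3, w2]; norm_num
  | succ d ih =>
    rw [Finset.sum_range_succ, ih]
    simp only [w3, w2]; push_cast; ring

lemma w2_sum' (d : ℕ) :
    ∑ m ∈ Finset.range (d+1), (m:ℝ) * w2 m = (d:ℝ) * (d+1) * (d+2) * (d+3) / 8 := by
  induction d with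
  | zero => simp
  | succ d ih =>
    rw [Finset.sum_range_succ, ih]
    simp only [w2]; push_cast; ring

lemma w2_mom (d : ℕ) : ∑ e ∈ Finset.range (d+1), (e:ℝ) * w2 (d - e) = (1/4) * d * w3 d := by
  rw [sum_flip_range d (fun e m => (e:ℝ) * w2 m)]
  have : ∀ m ∈ Finset.range (d+1), ((d - m : ℕ) : ℝ) * w2 m = d * w2 m - m * w2 m := by
    intro m hm
    have := Finset.mem_range.mp hm
    rw [Nat.cast_sub (by omega)]; ring
  rw [Finset.sum_congr rfl this, Finset.sum_sub_distrib, ← Finset.mul_sum, w2_sum']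
  have h := w2_sum d
  rw [sum_flip_range d (fun _ m => w2 m)] at h
  rw [h]; simp only [w3]; ring

lemma one_add_sum_le_prod {n : ℕ} (x : Fin n → ℝ) (hx : ∀ i, 0 ≤ x i) :
    1 + ∑ i, x i ≤ ∏ i, (x i + 1) := by
  induction n with
  | zero => simp
  | succ n ih =>
    rw [Fin.sum_univ_castSucc, Fin.prod_univ_castSucc]
    have h := ih (fun i => x i.castSucc) (fun i => hx _)
    have h0 := hx (Fin.last n)
    have hs : 0 ≤ ∑ i : Fin n, x i.castSucc := Finset.sum_nonneg (fun i _ => hx _)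
    nlinarith [mul_nonneg hs h0]

/-- Number of Tesler matrices through the diagonals of the matrices of one size less. -/
lemma card_tes_succ {n : ℕ} (α : Fin (n+1) → ℕ) :
    ((tes α).card : ℝ) = ∑ A ∈ tes (fun i => α i.castSucc), ∏ i, w1 (A i i) := by
  have h := sum_tes_succ α (fun _ => (1 : ℕ))
  rw [← Finset.card_eq_sum_ones] at h
  rw [h]
  push_cast
  apply Finset.sum_congr rfl
  intro A _
  rw [Finset.sum_const, nsmul_eq_mul, mul_one, Fintype.card_piFinset]
  push_cast
  apply Finset.prod_congr rfl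
  intro i _
  simp [w1]

lemma sum_w1_succ {n : ℕ} (α : Fin (n+1) → ℕ) :
    ∑ A ∈ tes α, ∏ i, w1 (A i i) =
      ((α (Fin.last n) : ℝ) + 1 + (∑ i : Fin n, (α i.castSucc : ℝ)) / 3) *
        ∑ A ∈ tes (fun i => α i.castSucc), ∏ i, w2 (A i i) := by
  rw [sum_tes_succ, Finset.mul_sum]
  apply Finset.sum_congr rfl
  intro A hA
  rw [mem_tes] at hA
  have hd := sum_diag _ A hA
  have h := sum_pi_affine (fun i => A i i) w1 w2 (1/3) ((α (Fin.last n) : ℝ) + 1) 1 w1_sum w1_mom
  have hd' : ∑ i, (A i i : ℝ) = ∑ i : Fin n, (α i.castSucc : ℝ) := by exact_mod_cast hd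
  rw [hd'] at h
  rw [show ((α (Fin.last n) : ℝ) + 1 + (∑ i : Fin n, (α i.castSucc : ℝ)) / 3) * ∏ i, w2 (A i i) =
    (∏ i, w2 (A i i)) * ((α (Fin.last n) : ℝ) + 1 + 1 * (1/3) * ∑ i : Fin n, (α i.castSucc : ℝ)) by ring,
    ← h]
  apply Finset.sum_congr rfl
  intro e _
  rw [Fin.prod_univ_castSucc]
  simp only [up_cc, up_ll, if_true]
  congr 1
  simp only [w1]; push_cast; ring

/-- The all-ones hook sum vector. -/
def ones (n : ℕ) : Fin n → ℕ := fun _ => 1

noncomputable def S (n : ℕ) : ℝ := ∑ A ∈ tes (ones n), ∏ i, w2 (A i i)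

lemma ones_castSucc (n : ℕ) : (fun i : Fin n => ones (n+1) i.castSucc) = ones n := rfl

lemma w2_nonneg (m : ℕ) : 0 ≤ w2 m := by unfold w2; positivity

lemma S_nonneg (n : ℕ) : 0 ≤ S n :=
  Finset.sum_nonneg fun _ _ => Finset.prod_nonneg fun _ _ => w2_nonneg _

lemma card_ones (m : ℕ) : ((tes (ones (m+2))).card : ℝ) = ((m:ℝ) + 6) / 3 * S m := by
  rw [card_tes_succ, ones_castSucc, sum_w1_succ, ones_castSucc]
  simp only [ones, S]
  simp
  left
  ring

lemma S_succ_ge (k : ℕ) :
    ((k:ℝ) + 8) * (k + 12) * (k + 3) / 96 * S k ≤ S (k+1) := by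
  unfold S
  rw [sum_tes_succ, ones_castSucc, Finset.mul_sum]
  apply Finset.sum_le_sum
  intro A hA
  rw [mem_tes] at hA
  have hd := sum_diag _ A hA
  have hd' : ∑ i, (A i i : ℝ) = k := by
    have : ∑ i, A i i = k := by rw [hd]; simp [ones]
    exact_mod_cast this
  -- tangent line of `f s = (s+2)(s+3)/2` at `s = k/4`
  set b : ℝ := (k:ℝ)/4 + 5/2 with hb
  set a : ℝ := ((k:ℝ)/4 + 2) * ((k:ℝ)/4 + 3) / 2 - b * ((k:ℝ)/4) with ha
  have h := sum_pi_affine (fun i => A i i) w2 w3 (1/4) a b w2_sum w2_mom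
  rw [hd'] at h
  have hprod : (∏ i, w3 (A i i)) = (∏ i, w2 (A i i)) * ∏ i, ((A i i : ℝ) / 3 + 1) := by
    rw [← Finset.prod_mul_distrib]
    apply Finset.prod_congr rfl
    intro i _
    simp only [w2, w3]; ring
  have hP : 0 ≤ ∏ i, w2 (A i i) := Finset.prod_nonneg fun i _ => w2_nonneg _
  have hge : (∏ i, w2 (A i i)) * (1 + (k:ℝ)/3) ≤ ∏ i, w3 (A i i) := by
    rw [hprod]
    apply mul_le_mul_of_nonneg_left _ hP
    have := one_add_sum_le_prod (fun i => (A i i : ℝ) / 3) (fun i => by positivity)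
    rw [← Finset.sum_div, hd'] at this
    exact this
  have hk : (0:ℝ) ≤ k := Nat.cast_nonneg k
  calc ((k:ℝ) + 8) * (k + 12) * (k + 3) / 96 * ∏ i, w2 (A i i)
      = ((∏ i, w2 (A i i)) * (1 + (k:ℝ)/3)) * (((k:ℝ)/4 + 2) * ((k:ℝ)/4 + 3) / 2) := by ring
    _ ≤ (∏ i, w3 (A i i)) * (((k:ℝ)/4 + 2) * ((k:ℝ)/4 + 3) / 2) := by
        apply mul_le_mul_of_nonneg_right hge; positivity
    _ = (∏ i, w3 (A i i)) * (a + b * (1/4) * k) := by rw [ha]; ring
    _ = _ := h.symm
    _ ≤ _ := by
        apply Finset.sum_le_sum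
        intro e _
        rw [Fin.prod_univ_castSucc]
        simp only [up_cc, up_ll, if_true]
        have hQ : 0 ≤ ∏ i, w2 (A i i - e i) := Finset.prod_nonneg fun i _ => w2_nonneg _
        apply mul_le_mul_of_nonneg_left _ hQ
        simp only [w2, ones]
        push_cast
        rw [ha, hb]
        nlinarith [sq_nonneg (∑ i, (e i : ℝ) - (k:ℝ)/4)]


/-! ### The base case: `S 5 = 26190`, by enumerating the 357 matrices of size 5 through their
diagonals -/

/-- `lsum H l` is the sum of `H (l - e) (∑ e)` over all `e ≤ l`. -/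
def lsum : (List ℕ → ℕ → ℕ) → List ℕ → ℕ
  | H, [] => H [] 0
  | H, d :: ds => ((List.range (d+1)).map
      (fun e => lsum (fun r s => H ((d - e) :: r) (e + s)) ds)).sum

lemma list_range_map_sum (n : ℕ) (f : ℕ → ℕ) :
    ((List.range n).map f).sum = ∑ i ∈ Finset.range n, f i := by
  induction n with
  | zero => simp
  | succ n ih => rw [List.range_succ, List.map_append, List.sum_append, ih, Finset.sum_range_succ]; simp

lemma sum_piFinset_succ {n : ℕ} (d : Fin (n+1) → ℕ) (K : (Fin (n+1) → ℕ) → ℕ) :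
    ∑ e ∈ Fintype.piFinset (fun i => Finset.range (d i + 1)), K e =
      ∑ x ∈ Finset.range (d 0 + 1),
        ∑ e ∈ Fintype.piFinset (fun i : Fin n => Finset.range (d i.succ + 1)), K (Fin.cons x e) := by
  rw [← Finset.sum_product']
  refine Finset.sum_nbij' (fun e => (e 0, Fin.tail e)) (fun p => Fin.cons p.1 p.2) ?_ ?_ ?_ ?_ ?_
  · intro e he
    simp only [Fintype.mem_piFinset, Finset.mem_product] at he ⊢
    exact ⟨he 0, fun i => he i.succ⟩
  · rintro ⟨x, e⟩ he
    simp only [Fintype.mem_piFinset, Finset.mem_product] at he ⊢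
    intro i
    refine Fin.cases ?_ (fun i' => ?_) i
    · exact he.1
    · exact he.2 i'
  · intro e _
    exact Fin.cons_self_tail e
  · rintro ⟨x, e⟩ _
    simp
  · intro e _
    simp

lemma lsum_ofFn {n : ℕ} (H : List ℕ → ℕ → ℕ) (d : Fin n → ℕ) :
    lsum H (List.ofFn d) = ∑ e ∈ Fintype.piFinset (fun i => Finset.range (d i + 1)),
      H (List.ofFn (fun i => d i - e i)) (∑ i, e i) := by
  induction n generalizing H with
  | zero => simp [lsum]
  | succ n ih =>
    rw [List.ofFn_succ, lsum, list_range_map_sum, sum_piFinset_succ]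
    apply Finset.sum_congr rfl
    intro x _
    rw [ih]
    apply Finset.sum_congr rfl
    intro e _
    rw [List.ofFn_succ, Fin.sum_univ_succ]
    simp

/-- One step of the recursion on functions of the diagonal. -/
def stepL (F : List ℕ → ℕ) (l : List ℕ) : ℕ := lsum (fun r s => F (r ++ [1 + s])) l

/-- Sum of `F (diagonal)` over the Tesler matrices with hook sums `1^n`. -/
noncomputable def V (n : ℕ) (F : List ℕ → ℕ) : ℕ :=
  ∑ A ∈ tes (ones n), F (List.ofFn (fun i => A i i))

lemma V_succ (n : ℕ) (F : List ℕ → ℕ) : V (n+1) F = V n (stepL F) := by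
  unfold V
  rw [sum_tes_succ, ones_castSucc]
  apply Finset.sum_congr rfl
  intro A _
  unfold stepL
  rw [lsum_ofFn]
  apply Finset.sum_congr rfl
  intro e _
  rw [List.ofFn_succ_last]
  simp [ones]

lemma V_zero (F : List ℕ → ℕ) : V 0 F = F [] := by
  unfold V
  have : tes (ones 0) = {fun i => i.elim0} := by
    ext A
    rw [mem_tes, isTesler_iff, Finset.mem_singleton]
    constructor
    · intro _; funext i; exact i.elim0
    · intro _; exact ⟨fun i => i.elim0, fun i => i.elim0⟩
  rw [this]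
  simp

/-- Product of `2 * w2`. -/
def pw (l : List ℕ) : ℕ := (l.map (fun m => (m+1)*(m+2)/2)).prod

lemma pw_ofFn {n : ℕ} (d : Fin n → ℕ) : (pw (List.ofFn d) : ℝ) = ∏ i, w2 (d i) := by
  unfold pw
  rw [List.map_ofFn, List.prod_ofFn]
  push_cast
  apply Finset.prod_congr rfl
  intro i _
  simp only [Function.comp, w2]
  have : 2 ∣ (d i + 1) * (d i + 2) := (Nat.even_mul_succ_self (d i + 1)).two_dvd
  rw [Nat.cast_div this (by norm_num)]
  push_cast; ring

set_option maxRecDepth 100000 in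
lemma base_val : stepL (stepL (stepL (stepL (stepL pw)))) [] = 26190 := by decide +kernel

lemma S_five : S 5 = 26190 := by
  have h : V 5 pw = 26190 := by
    rw [V_succ, V_succ, V_succ, V_succ, V_succ, V_zero, base_val]
  have h2 : S 5 = (V 5 pw : ℝ) := by
    unfold S V
    push_cast
    apply Finset.sum_congr rfl
    intro A _
    rw [pw_ofFn]
  rw [h2, h]; norm_num

/-! ### Conclusion -/

lemma pow_ratio (m : ℕ) : ((m:ℝ) + 4)^(m+1) ≤ 3 * ((m:ℝ) + 3)^(m+1) := by
  have hm : (0:ℝ) < (m:ℝ) + 3 := by positivity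
  have h1 : ((m:ℝ) + 4) / (m + 3) ≤ Real.exp (1 / ((m:ℝ) + 3)) := by
    have := Real.add_one_le_exp (1 / ((m:ℝ) + 3))
    calc ((m:ℝ) + 4) / (m + 3) = 1 / ((m:ℝ) + 3) + 1 := by field_simp; ring
      _ ≤ _ := this
  have h2 : (((m:ℝ) + 4) / (m + 3))^(m+1) ≤ 3 := by
    calc (((m:ℝ) + 4) / (m + 3))^(m+1) ≤ (Real.exp (1 / ((m:ℝ) + 3)))^(m+1) :=
          pow_le_pow_left₀ (by positivity) h1 _
      _ = Real.exp (((m+1 : ℕ) : ℝ) * (1 / ((m:ℝ) + 3))) := by rw [Real.exp_nat_mul]
      _ ≤ Real.exp 1 := by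
          apply Real.exp_le_exp.mpr
          rw [mul_one_div, div_le_one hm]
          push_cast; linarith
      _ ≤ 3 := by
          have := Real.exp_one_lt_d9
          linarith
  rw [div_pow, div_le_iff₀ (by positivity)] at h2
  exact h2

lemma S_bound (m : ℕ) (hm : 9 ≤ m) : ((m:ℝ) + 3)^(m+1) ≤ ((m:ℝ) + 6) / 3 * S m := by
  induction m, hm using Nat.le_induction with
  | base =>
    have h5 := S_succ_ge 5
    have h6 := S_succ_ge 6
    have h7 := S_succ_ge 7
    have h8 := S_succ_ge 8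
    rw [S_five] at h5
    norm_num at h5 h6 h7 h8 ⊢
    linarith
  | succ m hm ih =>
    have h := S_succ_ge m
    have hr := pow_ratio m
    have hS := S_nonneg m
    have hm' : (9:ℝ) ≤ m := by exact_mod_cast hm
    push_cast
    have e1 : ((m:ℝ) + 1 + 3)^(m+1+1) = ((m:ℝ)+4) * ((m:ℝ)+4)^(m+1) := by
      rw [show (m:ℝ) + 1 + 3 = (m:ℝ) + 4 by ring]; ring
    rw [e1]
    have hpow : (0:ℝ) ≤ ((m:ℝ)+3)^(m+1) := by positivity
    calc ((m:ℝ)+4) * ((m:ℝ)+4)^(m+1) ≤ ((m:ℝ)+4) * (3 * ((m:ℝ) + 3)^(m+1)) :=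
          mul_le_mul_of_nonneg_left hr (by positivity)
      _ ≤ ((m:ℝ) + 7) * (((m:ℝ) + 8) * (m + 12) * (m + 3)) / (96 * ((m:ℝ) + 6)) *
            ((m:ℝ) + 3)^(m+1) := by
          rw [← mul_assoc]
          apply mul_le_mul_of_nonneg_right _ hpow
          rw [le_div_iff₀ (by positivity)]
          nlinarith [mul_nonneg (sub_nonneg.mpr hm') (sub_nonneg.mpr hm'),
            mul_nonneg (mul_nonneg (sub_nonneg.mpr hm') (sub_nonneg.mpr hm')) (sub_nonneg.mpr hm'),
            mul_nonneg (mul_nonneg (sub_nonneg.mpr hm') (sub_nonneg.mpr hm'))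
              (mul_nonneg (sub_nonneg.mpr hm') (sub_nonneg.mpr hm'))]
      _ ≤ ((m:ℝ) + 7) * (((m:ℝ) + 8) * (m + 12) * (m + 3)) / (96 * ((m:ℝ) + 6)) *
            (((m:ℝ) + 6) / 3 * S m) := by
          apply mul_le_mul_of_nonneg_left ih; positivity
      _ = ((m:ℝ) + 7) / 3 * (((m:ℝ) + 8) * (m + 12) * (m + 3) / 96 * S m) := by
          field_simp
      _ ≤ ((m:ℝ) + 7) / 3 * S (m+1) := by
          apply mul_le_mul_of_nonneg_left h; positivity
      _ = _ := by ring

lemma ones_bound (k : ℕ) (hk : 11 ≤ k) : (k+1)^(k-1) ≤ (tes (ones k)).card := by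
  obtain ⟨m, rfl⟩ : ∃ m, k = m + 2 := ⟨k - 2, by omega⟩
  have h := S_bound m (by omega)
  rw [← card_ones] at h
  have : ((m:ℝ) + 3)^(m+1) = (((m + 2 + 1)^(m+2-1) : ℕ) : ℝ) := by
    rw [show m + 2 - 1 = m + 1 by omega]; push_cast; ring
  rw [this] at h
  exact_mod_cast h

/-- The hook sum vector `(1^k, 0^{n-k})`. -/
def hook (n k : ℕ) : Fin n → ℕ := fun i => if (i : ℕ) < k then 1 else 0

lemma hook_castSucc (n k : ℕ) : (fun i : Fin n => hook (n+1) k i.castSucc) = hook n k := rfl

lemma hook_self (k : ℕ) : hook k k = ones k := by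
  funext i; simp [hook, ones]

lemma sum_hook (n k : ℕ) (h : k ≤ n) : ∑ i, hook n k i = k := by
  unfold hook
  rw [Finset.sum_boole, Nat.cast_id, Fin.card_filter_val_lt]
  omega

lemma hook_bound (k : ℕ) (hk : 11 ≤ k) (n : ℕ) (hn : k ≤ n) :
    (k+1)^(n-1) ≤ (tes (hook n k)).card := by
  induction n, hn using Nat.le_induction with
  | base => rw [hook_self]; exact ones_bound k hk
  | succ n hn ih =>
    have h : (((k:ℝ) + 1) * ((tes (hook n k)).card : ℝ)) ≤ ((tes (hook (n+1) k)).card : ℝ) := by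
      rw [card_tes_succ, hook_castSucc, Finset.card_eq_sum_ones, Nat.cast_sum, Finset.mul_sum]
      apply Finset.sum_le_sum
      intro A hA
      rw [mem_tes] at hA
      have hd := sum_diag _ A hA
      rw [sum_hook n k hn] at hd
      have := one_add_sum_le_prod (fun i => (A i i : ℝ)) (fun i => by positivity)
      have hd' : ∑ i, (A i i : ℝ) = k := by exact_mod_cast hd
      rw [hd'] at this
      simp only [w1]
      push_cast
      linarith
    have h' : (k+1) * (tes (hook n k)).card ≤ (tes (hook (n+1) k)).card := by exact_mod_cast h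
    calc (k+1)^(n+1-1) = (k+1) * (k+1)^(n-1) := by
          rw [← pow_succ']; congr 1; omega
      _ ≤ (k+1) * (tes (hook n k)).card := Nat.mul_le_mul_left _ ih
      _ ≤ _ := h'

/-- For all integers `n ≥ k ≥ 11`, the number of Tesler matrices with hook sums
`(1^k, 0^{n-k})` is at least `(k+1)^(n-1)` (and the set of these matrices is finite). -/
theorem result :
    (∀ (n : ℕ) (α : Fin n → ℕ), {A : (Fin n → Fin n → ℕ) | IsTesler α A}.Finite) ∧
    ∀ n k : ℕ, 11 ≤ k → k ≤ n →
      (k+1)^(n-1) ≤ teslerCount (fun i : Fin n => if (i : ℕ) < k then 1 else 0) := by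
  refine ⟨fun n α => finite_tesler α, fun n k hk hn => ?_⟩
  rw [teslerCount_eq]
  exact hook_bound k hk n hn

end Pool.Agent.Results.MP_1235ca_co.TeslerBound
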